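import Pool.Agent.D0H77.TS.Rel

/-! # FOLDN: the class `Nice` of the fold-type ideals -/

set_option autoImplicit false
set_option linter.unusedSectionVars false
set_option linter.unusedVariables false

namespace Pool.Agent.D0H77.TS

open MvPolynomial Pool.Agent.W428.MOT Pool.Agent.TH192.MT Pool.Agent.TH192.DT
  Pool.Agent.D0H67.SUB Pool.Agent.D0H67.PM Pool.Agent.D0H67.SUB.Trn Pool.Agent.D0H67.CX
  Pool.Agent.D0H67.TS Pool.Agent.D0H9.SUB

/-- the leading coefficients -/
theorem jetC_lead {K : Type} [Field K] {σ S : Type} [Fintype σ] [Fintype S] [DecidableEq S]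
    {κ : S → Type} (c : (s : S) → κ s → σ → K) (P : Finset (S → ℕ)) (hP : P.Nonempty)
    (A : Finset S) (hf : 0 < fP P hP A) (p v : Pt K σ) (N : ℕ)
    (z : Pt K (σ × Fin (N + 1))) (h0 : jk z 0 = p) (a : ℕ) (ha : 0 < a)
    (h1 : ∀ k < a, jk z k ∈ (A.inf fun s => zerosF (c s) : Submodule _ _))
    (μ : AlgebraicClosure K)
    (h2 : jk z a - μ • v ∈ (A.inf fun s => zerosF (c s) : Submodule _ _))
    (h3 : fP P hP A * a = N) :
    z ∈ JetC (gensP P c) p (fun g => if ∑ s ∈ A, g.1.1 s = fP P hP A then ∏ s, ∏ k, ∑ i,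
        algebraMap K (AlgebraicClosure K) (c s (g.2 s k) i) * (if s ∈ A then v i else p i)
        else 0) N (μ ^ fP P hP A) := by
  have happ : ∀ s (i : σ), (if s ∈ A then v i else p i) = (if s ∈ A then v else p) i := by
    intro s i
    split_ifs <;> rfl
  have hmemG : ∀ x : Pt K σ, x ∈ (A.inf fun s => zerosF (c s) : Submodule _ _) ↔
      ∀ s ∈ A, x ∈ zerosF (c s) := fun x => Submodule.mem_finsetInf
  have hz0 : (∀ i, z (i, 0) = p i) ↔ jk z 0 = p := by
    rw [funext_iff, Lev.jk_zero]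
  rw [hmemG] at h2
  have hv' : ∀ s ∈ A, ∀ j, ∑ i, algebraMap K (AlgebraicClosure K) (c s j i) * jk z a i =
      μ * ∑ i, algebraMap K (AlgebraicClosure K) (c s j i) * v i := by
    intro s hs j
    have h4 := (mem_zerosF _ _).1 (h2 s hs) j
    simp only [Pi.sub_apply, Pi.smul_apply, smul_eq_mul, mul_sub, Finset.sum_sub_distrib,
      sub_eq_zero] at h4
    rw [h4, Finset.mul_sum]
    exact Finset.sum_congr rfl fun i _ => by ring
  have hl := fun (e : S → ℕ) (g : (s : S) → Fin (e s) → κ s) =>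
    lead_gens z c e (fun s => if s ∈ A then a else 0) (fun s k hk => by
      by_cases hs : s ∈ A
      · rw [if_pos hs] at hk
        exact (hmemG _).1 (h1 k hk) s hs
      · rw [if_neg hs] at hk
        exact absurd hk (Nat.not_lt_zero k)) g
  have hT : ∀ e : S → ℕ, ∑ s, e s * (if s ∈ A then a else 0) = (∑ s ∈ A, e s) * a := by
    intro e
    rw [Finset.sum_mul, ← Finset.sum_subset (Finset.subset_univ A) fun s _ hs => by
      rw [if_neg hs, mul_zero]]
    exact Finset.sum_congr rfl fun s hs => by rw [if_pos hs]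
  unfold JetC
  rw [Set.mem_ofPred_eq, hz0]
  simp only [happ]
  refine ⟨h0, fun g k hk => ?_, fun g => ?_⟩
  · refine (hl g.1.1 g.2).1 k ?_
    rw [hT]
    refine lt_of_lt_of_le hk ?_
    rw [← h3]
    exact Nat.mul_le_mul_right _ (Pool.Agent.D0H67.PM.Ord.fP_le hP g.1.2 A)
  · split_ifs with h4
    · have h5 := (hl g.1.1 g.2).2
      rw [hT, h4, h3] at h5
      rw [gensP, h5, ← h4]
      have h6 : ∀ s, ∏ k : Fin (g.1.1 s), ∑ i, algebraMap K (AlgebraicClosure K)
          (c s (g.2 s k) i) * jk z (if s ∈ A then a else 0) i =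
          (if s ∈ A then μ ^ g.1.1 s else 1) * ∏ k : Fin (g.1.1 s),
            ∑ i, algebraMap K (AlgebraicClosure K) (c s (g.2 s k) i) *
              (if s ∈ A then v else p) i := by
        intro s
        by_cases hs : s ∈ A
        · rw [if_pos hs, if_pos hs, if_pos hs, Finset.prod_congr rfl fun k _ => hv' s hs _,
            Finset.prod_mul_distrib, Finset.prod_const, Finset.card_univ, Fintype.card_fin]
        · rw [if_neg hs, if_neg hs, if_neg hs, one_mul, h0]
      rw [Finset.prod_congr rfl fun s _ => h6 s, Finset.prod_mul_distrib]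
      congr 1
      rw [Finset.prod_ite, Finset.prod_const_one, mul_one, Finset.filter_mem_eq_inter,
        Finset.univ_inter, Finset.prod_pow_eq_pow_sum]
    · rw [mul_zero]
      refine (hl g.1.1 g.2).1 N ?_
      rw [hT, ← h3]
      exact Nat.mul_lt_mul_of_pos_right (lt_of_le_of_ne (Pool.Agent.D0H67.PM.Ord.fP_le hP g.1.2 A) (Ne.symm h4)) ha

/-- **FOLDN.** -/
theorem t_FOLDN : S_FOLDN := by
  intro σ S _ _ _ κ _ c P hP hc A hf hX p hpG hp
  obtain ⟨Φ₀, h1, h2, h3⟩ := Pool.Agent.D0H9.SUB.trans (K := ℂ) (σ := σ)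
  set L : S → Submodule ℂ (σ → ℂ) := fun s => zeros (c s) with hLdef
  obtain ⟨v, -, -, hvL⟩ := Pool.Agent.D0H9.SUB.pt (⊤ : Submodule ℂ (σ → ℂ)) (fun s : S => L s)
    (fun s h => hc s (top_le_iff.1 h)) 1 one_pos
  set pF : Pt ℂ σ := aP p with hpF
  set vF : Pt ℂ σ := aP v with hvF
  have h4 : ∀ s, Φ₀ (L s) = zerosF (c s) := fun s => h3 (c s)
  have hvF' : ∀ s, vF ∉ zerosF (c s) := fun s => by
    rw [← h4]
    exact fun h => hvL s ((h2 _ _).2 h)
  have hpA : ∀ s ∈ A, p ∈ L s := fun s hs => (Finset.inf_le (f := L) hs) hpG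
  have hpF1 : ∀ s ∈ A, pF ∈ zerosF (c s) := fun s hs => by
    rw [← h4]
    exact (h2 _ _).1 (hpA s hs)
  have hpF2 : ∀ s, s ∉ A → pF ∉ zerosF (c s) := fun s hs => by
    rw [← h4]
    exact fun h => hp s hs ((h2 _ _).2 h)
  have hA0 : A.Nonempty := by
    by_contra h
    rw [Finset.not_nonempty_iff_eq_empty] at h
    rw [h, Pool.Agent.D0H67.PM.Fin.fP_empty] at hf
    omega
  obtain ⟨s0, hs0⟩ := hA0
  set G : Submodule (AlgebraicClosure ℂ) (Pt ℂ σ) := A.inf fun s => zerosF (c s) with hG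
  have hpG' : pF ∈ G := by
    rw [hG, Submodule.mem_finsetInf]
    exact hpF1
  have hvG : vF ∉ G := fun h => hvF' s0 ((Finset.inf_le hs0 : G ≤ _) h)
  -- the vector of the leading coefficients
  set y : GI P κ → ℂ := fun g => if ∑ s ∈ A, g.1.1 s = fP P hP A then ∏ s, ∏ k, ∑ i,
    c s (g.2 s k) i * (if s ∈ A then v i else p i) else 0 with hy
  have hyF : aP y = fun g : GI P κ =>
      if ∑ s ∈ A, g.1.1 s = fP P hP A then ∏ s, ∏ k, ∑ i,
      algebraMap ℂ (AlgebraicClosure ℂ) (c s (g.2 s k) i) * (if s ∈ A then vF i else pF i)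
        else 0 := by
    funext g
    unfold aP
    rw [hy]
    by_cases h : ∑ s ∈ A, g.1.1 s = fP P hP A
    · simp only [if_pos h, map_prod, map_sum, map_mul]
      refine Finset.prod_congr rfl fun s _ => Finset.prod_congr rfl fun k _ =>
        Finset.sum_congr rfl fun i _ => ?_
      congr 1
      split_ifs <;> rfl
    · simp only [if_neg h, map_zero]
  have hJ : ∀ N, JetE (gensP P c) pF (aP y) N =
      {z : Pt ℂ (σ × _root_.Fin (N + 1)) | jk z 0 = pF ∧ ∃ a : ℕ,
        (∀ k < a, jk z k ∈ G) ∧ jk z a ∈ conv G vF ∧ fP P hP A * a = N} := by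
    intro N
    rw [hyF]
    exact Pool.Agent.D0H67.PM.Ord.ord2 c P hP A hX hf pF vF (fun s _ => hvF' s) hpF1 hpF2 N
  have hy0 : y ≠ 0 := by
    intro h0
    have h6 : ∀ s, ∃ j : κ s, ∑ i, c s j i * (if s ∈ A then v i else p i) ≠ 0 := by
      intro s
      by_contra h7
      push Not at h7
      by_cases hs : s ∈ A
      · exact hvL s fun j => by
          have := h7 j
          simpa only [if_pos hs] using this
      · exact hp s hs fun j => by
          have := h7 j
          simpa only [if_neg hs] using this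
    choose j hj using h6
    obtain ⟨e, he, he'⟩ := Pool.Agent.D0H67.PM.Ord.exists_min hP A
    have h7 := congrFun h0 ⟨⟨e, he⟩, fun s _ => j s⟩
    rw [hy] at h7
    simp only [if_pos he'] at h7
    exact (Finset.prod_ne_zero_iff.2 fun s _ => Finset.prod_ne_zero_iff.2 fun k _ => hj s) h7
  have hyF0 : ∃ g, aP y g ≠ 0 := by
    obtain ⟨g, hg⟩ := Function.ne_iff.1 hy0
    refine ⟨g, fun h => hg ?_⟩
    exact Loc.injA (by
      change algebraMap ℂ (AlgebraicClosure ℂ) (y g) = algebraMap ℂ (AlgebraicClosure ℂ) 0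
      rw [map_zero]
      exact h)
  refine ⟨y, hy0, hf, one_pos, ⟨fP P hP A, hf, ?_⟩, fun N hN0 => ⟨fun hd => ?_, fun hd => ?_⟩⟩
  · -- there are jets
    rw [hJ]
    have hz : jk (fun q : σ × _root_.Fin (fP P hP A + 1) => if (q.2 : ℕ) = 0 then pF q.1 else
        if (q.2 : ℕ) = 1 then vF q.1 else 0) 0 = pF := by
      rw [Lev.jk_zero]
      funext i
      simp
    refine ⟨fun q => if (q.2 : ℕ) = 0 then pF q.1 else if (q.2 : ℕ) = 1 then vF q.1 else 0, hz,
      1, fun k hk => ?_, ?_, Nat.mul_one _⟩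
    · have hk0 : k = 0 := Nat.lt_one_iff.1 hk
      subst hk0
      rw [hz]
      exact hpG'
    · refine ⟨1, one_ne_zero, ?_⟩
      rw [one_smul]
      have h6 : jk (fun q : σ × _root_.Fin (fP P hP A + 1) => if (q.2 : ℕ) = 0 then pF q.1 else
        if (q.2 : ℕ) = 1 then vF q.1 else 0) 1 = vF := by
        funext i
        rw [Lev.jk_lt _ (by omega)]
        simp
      rw [h6, sub_self]
      exact G.zero_mem
  · obtain ⟨a, ha⟩ := hd
    have ha0 : 0 < a := by
      by_contra h
      have h5 : a = 0 := by omega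
      rw [h5, mul_zero] at ha
      omega
    have haN : a ≤ N := by
      rw [ha]
      exact Nat.le_mul_of_pos_left _ hf
    refine ⟨a * Module.finrank (AlgebraicClosure ℂ) G + Fintype.card σ * (N - a),
      fun {ρ} _ Φ hΦ => ?_⟩
    have hset : LS (gensP P c) pF (aP y) N Φ = TT G pF vF (fP P hP A) a N Φ := by
      ext x
      constructor
      · rintro ⟨c₀, hc₀, h5, h6⟩
        have h7 : (fun q => x (Sum.inr q)) ∈ JetE (gensP P c) pF (aP y) N :=
          ⟨h5.1, h5.2.1, c₀, hc₀, h5.2.2⟩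
        rw [hJ] at h7
        obtain ⟨h8, a', h9, ⟨μ, hμ, h10⟩, h11⟩ := h7
        have ha' : a' = a := Nat.eq_of_mul_eq_mul_left hf (h11.trans ha)
        rw [ha'] at h9 h10
        have h12 := jetC_lead c P hP A hf pF vF N (fun q => x (Sum.inr q)) h8 a ha0 h9 μ h10
          ha.symm
        rw [← hyF] at h12
        obtain ⟨g, hg⟩ := hyF0
        have h13 : c₀ = μ ^ fP P hP A := by
          have h14 := (h5.2.2 g).symm.trans (h12.2.2 g)
          exact mul_right_cancel₀ hg h14
        rw [h13] at h6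
        exact ⟨h8, h9, μ, hμ, h10, h6⟩
      · rintro ⟨h8, h9, μ, hμ, h10, h6⟩
        have h12 := jetC_lead c P hP A hf pF vF N (fun q => x (Sum.inr q)) h8 a ha0 h9 μ h10
          ha.symm
        rw [← hyF] at h12
        exact ⟨μ ^ fP P hP A, pow_ne_zero _ hμ, h12, h6⟩
    obtain ⟨h5, h6⟩ := rel G pF vF hpG' hvG (fP P hP A) a N ha0 haN Φ hΦ
    rw [hset]
    refine ⟨h5, fun {R} _ M w hw => ?_⟩
    rw [h6 M, Nat.cast_one, one_mul]
  · rw [hJ]
    ext z
    simp only [Set.mem_ofPred_eq, Set.mem_empty_iff_false, iff_false]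
    rintro ⟨-, a, -, -, h5⟩
    exact hd ⟨a, h5.symm⟩

end Pool.Agent.D0H77.TS
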