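import Pool.Agent.D0H67.TS.Stm
import Pool.Agent.D0H65.CX.Fib
import Pool.Agent.D0H87.CX.Tay

/-! # The class `Nice` and smooth maps -/

set_option autoImplicit false
set_option linter.unusedSectionVars false
set_option linter.unusedVariables false

namespace Pool.Agent.D0H77.TS

open MvPolynomial Pool.Agent.W428.MOT Pool.Agent.TH192.MT Pool.Agent.TH192.DT
  Pool.Agent.D0H67.SUB Pool.Agent.D0H67.PM Pool.Agent.D0H67.SUB.Trn Pool.Agent.D0H67.CX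
  Pool.Agent.D0H67.CX.Loc Pool.Agent.D0H67.TS

theorem mem_jetE_iff {K : Type} [Field K] {σ J : Type} (g : J → MvPolynomial σ K) (p : Pt K σ)
    (y : J → AlgebraicClosure K) (N : ℕ) (z : Pt K (σ × Fin (N + 1))) :
    z ∈ JetE g p y N ↔ ∃ c : AlgebraicClosure K, c ≠ 0 ∧ z ∈ JetC g p y N c := by
  constructor
  · rintro ⟨h1, h2, c, hc, h3⟩
    exact ⟨c, hc, h1, h2, h3⟩
  · rintro ⟨c, hc, h1, h2, h3⟩
    exact ⟨h1, h2, c, hc, h3⟩

/-- **LIFTN.** -/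
theorem t_LIFTN : S_ORDC → S_FIBR → S_LIFTN := by
  intro hORDC hFIBR σ τ J J' _ _ _ _ _ g g' f h hI1 hI2 κ p hκ hdet hhp y' M₀ k hN
  obtain ⟨hy', hM₀, hk, ⟨N₀, hN₀, w₀, hw₀⟩, hE⟩ := hN
  have hvf : aP (fun i => eval p (f i)) = vf f (aP p) := by
    funext i
    unfold vf aP
    rw [aevalA]
  rw [hvf] at hw₀
  simp only [hvf] at hE
  have hyF'0 : aP y' ≠ 0 := by
    intro h1
    apply hy'
    funext j
    exact injA (by rw [show algebraMap ℂ (AlgebraicClosure ℂ) (y' j) = 0 from congrFun h1 j]; simp)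
  have hBc : Constr ({aP p} : Set (Pt ℂ σ)) := by
    have h1 : ({aP p} : Set (Pt ℂ σ)) = {x | ∀ i, x i = aP p i} := by
      ext x
      rw [Set.mem_singleton_iff, funext_iff]
      rfl
    rw [h1]
    exact Constr.all fun i => Constr.eq (IsPF.coord i) (Base.pf_const _)
  have hBd : ∀ x ∈ ({aP p} : Set (Pt ℂ σ)), (jac f κ x).det ≠ 0 := by
    intro x hx
    rw [Set.mem_singleton_iff] at hx
    rw [hx]
    unfold aP
    rw [jac_det]
    intro h1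
    exact hdet (injA (by rw [h1, map_zero]))
  have hhF : aeval (aP p) h ≠ 0 := by
    unfold aP
    rw [aevalA]
    intro h1
    exact hhp (injA (by rw [h1, map_zero]))
  have hjk : ∀ {N : ℕ} {ψ : Pt ℂ (τ × Fin (N + 1))} {c : AlgebraicClosure ℂ},
      ψ ∈ JetC g' (vf f (aP p)) (aP y') N c → jk ψ 0 = vf f (aP p) := by
    intro N ψ c hψ
    rw [Lev.jk_zero]
    funext i
    exact hψ.1 i
  have hFIB : S_FIB := Pool.Agent.D0H65.CX.t_FIB Pool.Agent.D0H87.CX.t_TAY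
    Pool.Agent.D0H65.CX.t_SS
  -- a jet
  obtain ⟨z₀, hz₀, hz₀'⟩ := (hFIB f κ hκ {aP p} hBc hBd N₀).1 (aP p) rfl fun q => w₀ (q.1, q.2.succ)
  have hz₀w : push f z₀ = w₀ := by
    rw [hz₀']
    have h3 := gl_eta w₀
    have h4 : (fun i => w₀ (i, 0)) = vf f (aP p) := by
      funext i
      exact hw₀.1 i
    rwa [h4] at h3
  obtain ⟨yF, hyF, hJ⟩ := hORDC g g' f h hI1 hI2 (aP p) (aP y') N₀ z₀ hhF hz₀
    (by rw [hz₀w]; exact hw₀)
  choose y hy using fun j => Base.exists_alg (yF j)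
  have hy2 : aP y = yF := funext hy
  have hyF0 : yF ≠ 0 := hyF hyF'0
  have hEJ : ∀ N, JetE g (aP p) (aP y) N = {z : Pt ℂ (σ × Fin (N + 1)) | jk z 0 = aP p ∧
      push f z ∈ JetE g' (vf f (aP p)) (aP y') N} := by
    intro N
    ext z
    rw [mem_jetE_iff, Set.mem_ofPred_eq, mem_jetE_iff, hy2]
    constructor
    · rintro ⟨c, hc, h1⟩
      rw [hJ] at h1
      exact ⟨h1.1, c, hc, h1.2⟩
    · rintro ⟨h1, c, hc, h2⟩
      refine ⟨c, hc, ?_⟩
      rw [hJ]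
      exact ⟨h1, h2⟩
  refine ⟨y, ?_, hM₀, hk, ⟨N₀, hN₀, z₀, ?_⟩, fun N hN => ⟨fun hd => ?_, fun hd => ?_⟩⟩
  · intro h1
    apply hyF0
    rw [← hy2, h1]
    funext j
    simp [aP]
  · rw [hEJ]
    exact ⟨hz₀, by rw [hz₀w]; exact hw₀⟩
  · obtain ⟨m, hm⟩ := (hE N hN).1 hd
    refine ⟨m + (Fintype.card σ - Fintype.card τ) * N, fun {ρ} _ Φ hΦ => ?_⟩
    obtain ⟨hc, hχ⟩ := hm Φ hΦ
    have hset : LS g (aP p) (aP y) N Φ =
        {x : Pt ℂ (ρ ⊕ (σ × Fin (N + 1))) | jk (fun q => x (Sum.inr q)) 0 = aP p ∧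
          (Sum.elim (fun r => x (Sum.inl r)) (push f fun q => x (Sum.inr q)) :
            Pt ℂ (ρ ⊕ (τ × Fin (N + 1)))) ∈ LS g' (vf f (aP p)) (aP y') N Φ} := by
      ext x
      constructor
      · rintro ⟨c, hc0, h1, h2⟩
        rw [hy2, hJ] at h1
        exact ⟨h1.1, c, hc0, h1.2, h2⟩
      · rintro ⟨h0, c, hc0, h1, h2⟩
        refine ⟨c, hc0, ?_, h2⟩
        rw [hy2, hJ]
        exact ⟨h0, h1⟩
    obtain ⟨h3, h4⟩ := hFIBR f κ hκ p hdet N (LS g' (vf f (aP p)) (aP y') N Φ) hc (by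
      rintro x ⟨c, hc0, h1, h2⟩
      exact hjk h1)
    rw [hset]
    refine ⟨h3, fun {R} _ M v hv => ?_⟩
    rw [h4 M v hv, hχ M v hv, pow_add]
    ring
  · rw [hEJ, (hE N hN).2 hd]
    ext z
    simp

end Pool.Agent.D0H77.TS
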