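import Pool.Agent.D0H67.TS.Stm

/-! # Jets in a linear subspace up to a given order, with parameters -/

set_option autoImplicit false
set_option linter.unusedSectionVars false
set_option linter.unusedVariables false

namespace Pool.Agent.D0H77.TS

open MvPolynomial Pool.Agent.W428.MOT Pool.Agent.TH192.MT Pool.Agent.TH192.DT
  Pool.Agent.D0H67.SUB Pool.Agent.D0H67.PM Pool.Agent.D0H67.SUB.Trn Pool.Agent.D0H67.CX
  Pool.Agent.D0H67.TS

section

variable {K : Type} [Field K] [IsAlgClosed K] {σ : Type} [Fintype σ]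

/-- a parametrization of `G` and a projection -/
theorem exists_param (G : Submodule (AlgebraicClosure K) (Pt K σ)) (v : Pt K σ) (hv : v ∉ G) :
    ∃ (f0 : Pt K (Fin (Module.finrank (AlgebraicClosure K) G)) →ₗ[AlgebraicClosure K] Pt K σ)
      (g0 : Pt K σ →ₗ[AlgebraicClosure K] Pt K (Fin (Module.finrank (AlgebraicClosure K) G)))
      (φ : Pt K σ →ₗ[AlgebraicClosure K] AlgebraicClosure K),
      (∀ t, f0 t ∈ G) ∧ (∀ x ∈ G, f0 (g0 x) = x) ∧ (∀ x ∈ G, φ x = 0) ∧ φ v = 1 ∧ g0 v = 0 ∧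
      ∀ t, g0 (f0 t) = t := by
  have b := Module.finBasis (AlgebraicClosure K) G
  let f0 : Pt K (Fin (Module.finrank (AlgebraicClosure K) G)) →ₗ[AlgebraicClosure K] Pt K σ :=
    G.subtype.comp b.equivFun.symm.toLinearMap
  have hf0 : Function.Injective f0 := fun x y h =>
    b.equivFun.symm.injective (Subtype.ext h)
  have hf0G : ∀ t, f0 t ∈ G := fun t => (b.equivFun.symm t).2
  have hsurj : ∀ x ∈ G, ∃ t, f0 t = x := by
    intro x hx
    refine ⟨b.equivFun ⟨x, hx⟩, ?_⟩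
    change ((b.equivFun.symm (b.equivFun ⟨x, hx⟩) : G) : Pt K σ) = x
    rw [LinearEquiv.symm_apply_apply]
  let f1 : (Pt K (Fin (Module.finrank (AlgebraicClosure K) G)) × AlgebraicClosure K)
      →ₗ[AlgebraicClosure K] Pt K σ :=
    f0.coprod (LinearMap.toSpanSingleton (AlgebraicClosure K) (Pt K σ) v)
  have hf1 : ∀ t μ, f1 (t, μ) = f0 t + μ • v := by
    intro t μ
    simp [f1]
  have hinj : Function.Injective f1 := by
    rw [injective_iff_map_eq_zero]
    rintro ⟨t, μ⟩ h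
    rw [hf1] at h
    have hμ : μ = 0 := by
      by_contra hμ
      apply hv
      have h1 : μ • v ∈ G := by
        rw [← neg_eq_of_add_eq_zero_right h]
        exact G.neg_mem (hf0G t)
      have h2 := G.smul_mem μ⁻¹ h1
      rwa [inv_smul_smul₀ hμ] at h2
    rw [hμ, zero_smul, add_zero] at h
    have ht : t = 0 := hf0 (by rw [h, map_zero])
    rw [hμ, ht]
    rfl
  obtain ⟨g1, hg1⟩ := f1.exists_leftInverse_of_injective (LinearMap.ker_eq_bot.2 hinj)
  have hgf : ∀ t μ, g1 (f0 t + μ • v) = (t, μ) := by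
    intro t μ
    rw [← hf1]
    exact LinearMap.congr_fun hg1 (t, μ)
  refine ⟨f0, (LinearMap.fst _ _ _).comp g1, (LinearMap.snd _ _ _).comp g1, hf0G, ?_, ?_, ?_, ?_,
    ?_⟩
  · intro x hx
    obtain ⟨t, rfl⟩ := hsurj x hx
    have h := hgf t 0
    rw [zero_smul, add_zero] at h
    simp [h]
  · intro x hx
    obtain ⟨t, rfl⟩ := hsurj x hx
    have h := hgf t 0
    rw [zero_smul, add_zero] at h
    simp [h]
  · have h := hgf 0 1
    rw [map_zero, one_smul, zero_add] at h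
    simp [h]
  · have h := hgf 0 1
    rw [map_zero, one_smul, zero_add] at h
    simp [h]
  · intro t
    have h := hgf t 0
    rw [zero_smul, add_zero] at h
    simp [h]

/-- the set -/
def TT (G : Submodule (AlgebraicClosure K) (Pt K σ)) (p v : Pt K σ) (m a N : ℕ) {ρ : Type}
    (Φ : Set (Pt K (ρ ⊕ Unit))) : Set (Pt K (ρ ⊕ (σ × Fin (N + 1)))) :=
  {x | jk (fun q => x (Sum.inr q)) 0 = p ∧ (∀ k < a, jk (fun q => x (Sum.inr q)) k ∈ G) ∧
    ∃ μ : AlgebraicClosure K, μ ≠ 0 ∧ jk (fun q => x (Sum.inr q)) a - μ • v ∈ G ∧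
      (Sum.elim (fun r => x (Sum.inl r)) fun _ => μ ^ m : Pt K (ρ ⊕ Unit)) ∈ Φ}

theorem pf_jkr {ρ : Type} {N : ℕ} (k : ℕ) (i : σ) :
    IsPF fun x : Pt K (ρ ⊕ (σ × Fin (N + 1))) => jk (fun q => x (Sum.inr q)) k i :=
  (Lev.pf_jk k i).comp (fun x : Pt K (ρ ⊕ (σ × Fin (N + 1))) => fun q => x (Sum.inr q))
    fun q => IsPF.coord _

theorem constr_RS {ρ : Type} (m : ℕ) {Φ : Set (Pt K (ρ ⊕ Unit))} (hΦ : Constr Φ) :
    Constr (RS m Φ) := by
  refine Constr.and (Constr.ne (IsPF.coord _) IsPF.zero) (hΦ.preimage (fun x : Pt K (ρ ⊕ Unit) =>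
    (Sum.elim (fun r => x (Sum.inl r)) fun _ => x (Sum.inr ()) ^ m : Pt K (ρ ⊕ Unit))) ?_)
  rintro (r | r)
  · exact IsPF.coord _
  · exact (IsPF.coord _).pow m

/-- the inverse map, on the jets -/
noncomputable def gB (p v : Pt K σ) {d : ℕ}
    (f0 : Pt K (Fin d) →ₗ[AlgebraicClosure K] Pt K σ) (a N : ℕ) {ρ : Type}
    (y : Pt K ((ρ ⊕ Unit) ⊕ ((Fin a × Fin d) ⊕ (σ × Fin (N - a))))) (k : ℕ) : Pt K σ :=
  if k = 0 then p else if h : k - 1 < a then
    f0 (fun i' => y (Sum.inr (Sum.inl (⟨k - 1, h⟩, i')))) +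
      (if k = a then y (Sum.inl (Sum.inr ())) else 0) • v
  else if h' : k - 1 - a < N - a then fun i => y (Sum.inr (Sum.inr (i, ⟨k - 1 - a, h'⟩))) else 0

theorem pf_gB (p v : Pt K σ) {d : ℕ}
    (f0 : Pt K (Fin d) →ₗ[AlgebraicClosure K] Pt K σ) (a N : ℕ) {ρ : Type} (k : ℕ) (i : σ) :
    IsPF fun y : Pt K ((ρ ⊕ Unit) ⊕ ((Fin a × Fin d) ⊕ (σ × Fin (N - a)))) =>
      gB p v f0 a N y k i := by
  unfold gB
  split_ifs with h1 h2 h3 h4
  · exact Base.pf_const _
  · simp only [Pi.add_apply, Pi.smul_apply, smul_eq_mul]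
    exact ((Base.pf_map f0 i).comp (fun y : Pt K ((ρ ⊕ Unit) ⊕ ((Fin a × Fin d) ⊕
      (σ × Fin (N - a)))) => fun i' => y (Sum.inr (Sum.inl (⟨k - 1, h2⟩, i'))))
      fun i' => IsPF.coord _).add ((IsPF.coord _).mul (Base.pf_const _))
  · simp only [Pi.add_apply, Pi.smul_apply, smul_eq_mul, zero_mul, add_zero]
    exact (Base.pf_map f0 i).comp (fun y : Pt K ((ρ ⊕ Unit) ⊕ ((Fin a × Fin d) ⊕
      (σ × Fin (N - a)))) => fun i' => y (Sum.inr (Sum.inl (⟨k - 1, h2⟩, i'))))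
      fun i' => IsPF.coord _
  · exact IsPF.coord _
  · exact IsPF.zero

theorem rel (G : Submodule (AlgebraicClosure K) (Pt K σ)) (p v : Pt K σ) (hp : p ∈ G)
    (hv : v ∉ G) (m a N : ℕ) (ha : 0 < a) (haN : a ≤ N) {ρ : Type} [Fintype ρ]
    (Φ : Set (Pt K (ρ ⊕ Unit))) (hΦ : Constr Φ) :
    Constr (TT G p v m a N Φ) ∧ ∀ {R : Type} [CommRing R] (M : Meas K R),
      M.χ (ρ ⊕ (σ × Fin (N + 1))) (TT G p v m a N Φ) = M.χ (ρ ⊕ Unit) (RS m Φ) *
        M.L ^ (a * Module.finrank (AlgebraicClosure K) G + Fintype.card σ * (N - a)) := by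
  obtain ⟨f0, g0, φ, hf0G, hfg, hφG, hφv, hgv, hgf⟩ := exists_param G v hv
  have hdec : ∀ (x : Pt K σ) (μ : AlgebraicClosure K), x - μ • v ∈ G →
      φ x = μ ∧ f0 (g0 x) + μ • v = x := by
    intro x μ h
    have h1 := hφG _ h
    rw [map_sub, map_smul, hφv, smul_eq_mul, mul_one, sub_eq_zero] at h1
    have h2 := hfg _ h
    rw [map_sub, map_smul, hgv, smul_zero, sub_zero] at h2
    exact ⟨h1, by rw [h2, sub_add_cancel]⟩
  have hT : TT G p v m a N Φ = {x : Pt K (ρ ⊕ (σ × Fin (N + 1))) |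
      (∀ i, jk (fun q => x (Sum.inr q)) 0 i = p i) ∧
      (∀ k < a, jk (fun q => x (Sum.inr q)) k ∈ (G : Set (Pt K σ))) ∧
      φ (jk (fun q => x (Sum.inr q)) a) ≠ 0 ∧
      (fun i => jk (fun q => x (Sum.inr q)) a i - φ (jk (fun q => x (Sum.inr q)) a) * v i) ∈
        (G : Set (Pt K σ)) ∧
      (Sum.elim (fun r => x (Sum.inl r)) fun _ => φ (jk (fun q => x (Sum.inr q)) a) ^ m :
        Pt K (ρ ⊕ Unit)) ∈ Φ} := by
    ext x
    unfold TT
    rw [Set.mem_ofPred_eq, Set.mem_ofPred_eq, funext_iff]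
    refine and_congr_right fun _ => and_congr_right fun _ => ?_
    constructor
    · rintro ⟨μ, hμ, h1, h2⟩
      have h3 := (hdec _ _ h1).1
      rw [h3]
      exact ⟨hμ, h1, h2⟩
    · rintro ⟨h1, h2, h3⟩
      exact ⟨_, h1, h2, h3⟩
  have hTc : Constr (TT G p v m a N Φ) := by
    rw [hT]
    have hφ : IsPF fun x : Pt K (ρ ⊕ (σ × Fin (N + 1))) => φ (jk (fun q => x (Sum.inr q)) a) :=
      (Base.lin φ).comp (fun x : Pt K (ρ ⊕ (σ × Fin (N + 1))) =>
        jk (fun q => x (Sum.inr q)) a) fun i => pf_jkr a i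
    refine Constr.and (Constr.all fun i => Constr.eq (pf_jkr 0 i) (Base.pf_const _))
      (Constr.and (Constr.allLt a fun k _ => (Base.constr_sub G).preimage _ fun i => pf_jkr k i)
      (Constr.and (Constr.ne hφ IsPF.zero) (Constr.and ?_ ?_)))
    · exact (Base.constr_sub G).preimage _ fun i =>
        (pf_jkr a i).sub (hφ.mul (Base.pf_const _))
    · refine hΦ.preimage _ ?_
      rintro (r | r)
      · exact IsPF.coord _
      · exact hφ.pow m
  refine ⟨hTc, fun {R} _ M => ?_⟩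
  have hprod := M.prod (ι := ρ ⊕ Unit)
    (κ := (Fin a × Fin (Module.finrank (AlgebraicClosure K) G)) ⊕ (σ × Fin (N - a)))
    (RS m Φ) Set.univ (constr_RS m hΦ) Constr.univ
  have hcard : M.χ ((Fin a × Fin (Module.finrank (AlgebraicClosure K) G)) ⊕
      (σ × Fin (N - a))) Set.univ =
      M.L ^ (a * Module.finrank (AlgebraicClosure K) G + Fintype.card σ * (N - a)) := by
    rw [chi_univ, Fintype.card_sum, Fintype.card_prod, Fintype.card_prod, Fintype.card_fin,
      Fintype.card_fin, Fintype.card_fin]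
  rw [hcard] at hprod
  rw [← hprod]
  have hjg : ∀ (y : Pt K ((ρ ⊕ Unit) ⊕ ((Fin a × Fin (Module.finrank (AlgebraicClosure K) G)) ⊕
      (σ × Fin (N - a))))) (k : ℕ),
      k < N + 1 → jk (fun q : σ × Fin (N + 1) => gB p v f0 a N y (q.2 : ℕ) q.1) k =
        gB p v f0 a N y k := by
    intro y k hk
    funext i
    rw [Lev.jk_lt _ hk]
  refine M.iso _ _ hTc ?_
    (fun x => Sum.elim (Sum.elim (fun r => x (Sum.inl r))
        fun _ => φ (jk (fun q => x (Sum.inr q)) a))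
      (Sum.elim (fun ki => g0 (jk (fun q => x (Sum.inr q)) ((ki.1 : ℕ) + 1)) ki.2)
        fun il => jk (fun q => x (Sum.inr q)) (a + 1 + (il.2 : ℕ)) il.1))
    (fun y => Sum.elim (fun r => y (Sum.inl (Sum.inl r))) fun q => gB p v f0 a N y (q.2 : ℕ) q.1)
    (regularOn_poly ?_ _) (regularOn_poly ?_ _) ?_ ?_ ?_ ?_
  · exact ((constr_RS m hΦ).preimage _ fun i => IsPF.coord _).and
      (Constr.univ.preimage _ fun i => IsPF.coord _)
  · rintro ((r | r) | (ki | il))
    · exact IsPF.coord _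
    · exact (Base.lin φ).comp (fun x : Pt K (ρ ⊕ (σ × Fin (N + 1))) =>
        jk (fun q => x (Sum.inr q)) a) fun i => pf_jkr a i
    · exact (Base.pf_map g0 ki.2).comp (fun x : Pt K (ρ ⊕ (σ × Fin (N + 1))) =>
        jk (fun q => x (Sum.inr q)) ((ki.1 : ℕ) + 1)) fun i => pf_jkr _ i
    · exact pf_jkr _ _
  · rintro (r | q)
    · exact IsPF.coord _
    · exact pf_gB p v f0 a N _ _
  · rintro x ⟨h0, h1, μ, hμ, h2, h3⟩
    refine ⟨⟨?_, ?_⟩, trivial⟩
    · change φ (jk (fun q => x (Sum.inr q)) a) ≠ 0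
      rw [(hdec _ _ h2).1]
      exact hμ
    · change (Sum.elim (fun r => x (Sum.inl r)) fun _ => φ (jk (fun q => x (Sum.inr q)) a) ^ m :
        Pt K (ρ ⊕ Unit)) ∈ Φ
      rw [(hdec _ _ h2).1]
      exact h3
  · rintro y ⟨⟨h1, h2⟩, -⟩
    refine ⟨?_, fun k hk => ?_, y (Sum.inl (Sum.inr ())), h1, ?_, h2⟩
    · change jk (fun q : σ × Fin (N + 1) => gB p v f0 a N y (q.2 : ℕ) q.1) 0 = p
      rw [hjg y 0 (by omega)]
      unfold gB
      rw [if_pos rfl]
    · change jk (fun q : σ × Fin (N + 1) => gB p v f0 a N y (q.2 : ℕ) q.1) k ∈ G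
      rw [hjg y k (by omega)]
      unfold gB
      by_cases hk0 : k = 0
      · rw [if_pos hk0]
        exact hp
      · rw [if_neg hk0, dif_pos (by omega : k - 1 < a), if_neg (by omega), zero_smul, add_zero]
        exact hf0G _
    · change jk (fun q : σ × Fin (N + 1) => gB p v f0 a N y (q.2 : ℕ) q.1) a -
        y (Sum.inl (Sum.inr ())) • v ∈ G
      rw [hjg y a (by omega)]
      unfold gB
      rw [if_neg (by omega), dif_pos (by omega : a - 1 < a), if_pos rfl, add_sub_cancel_right]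
      exact hf0G _
  · rintro x ⟨h0, h1, μ, hμ, h2, h3⟩
    funext q
    rcases q with r | ⟨i, k⟩
    · rfl
    · have hk := k.2
      have hxk : x (Sum.inr (i, k)) = jk (fun q => x (Sum.inr q)) (k : ℕ) i := by
        rw [Lev.jk_lt _ hk]
      rw [hxk]
      change gB p v f0 a N _ (k : ℕ) i = _
      unfold gB
      by_cases hk0 : (k : ℕ) = 0
      · rw [if_pos hk0, hk0, h0]
      · rw [if_neg hk0]
        by_cases hka : (k : ℕ) - 1 < a
        · rw [dif_pos hka]
          have he : ((⟨(k : ℕ) - 1, hka⟩ : Fin a) : ℕ) + 1 = (k : ℕ) := by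
            change (k : ℕ) - 1 + 1 = (k : ℕ)
            omega
          change (f0 (fun i' => g0 (jk (fun q => x (Sum.inr q))
            (((⟨(k : ℕ) - 1, hka⟩ : Fin a) : ℕ) + 1)) i') +
            (if (k : ℕ) = a then φ (jk (fun q => x (Sum.inr q)) a) else 0) • v) i = _
          rw [he]
          by_cases hk' : (k : ℕ) = a
          · rw [if_pos hk', hk', (hdec _ _ h2).1]
            exact congrFun (hdec _ _ h2).2 i
          · rw [if_neg hk', zero_smul, add_zero]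
            exact congrFun (hfg _ (h1 k (by omega))) i
        · rw [dif_neg hka, dif_pos (by omega : (k : ℕ) - 1 - a < N - a)]
          change jk (fun q => x (Sum.inr q)) (a + 1 + ((k : ℕ) - 1 - a)) i = _
          have he : a + 1 + ((k : ℕ) - 1 - a) = (k : ℕ) := by omega
          rw [he]
  · rintro y ⟨⟨h1, h2⟩, -⟩
    have hga : gB p v f0 a N y a = f0 (fun i' => y (Sum.inr (Sum.inl (⟨a - 1, by omega⟩, i')))) +
        y (Sum.inl (Sum.inr ())) • v := by
      unfold gB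
      rw [if_neg (by omega), dif_pos (by omega : a - 1 < a), if_pos rfl]
    funext q
    rcases q with (r | r) | (⟨k, i⟩ | ⟨i, l⟩)
    · rfl
    · change φ (jk (fun q : σ × Fin (N + 1) => gB p v f0 a N y (q.2 : ℕ) q.1) a) = _
      rw [hjg y a (by omega), hga, map_add, hφG _ (hf0G _), map_smul, hφv, zero_add, smul_eq_mul,
        mul_one]
    · have hk := k.2
      change g0 (jk (fun q : σ × Fin (N + 1) => gB p v f0 a N y (q.2 : ℕ) q.1) ((k : ℕ) + 1)) i = _
      rw [hjg y _ (by omega)]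
      unfold gB
      rw [if_neg (by omega), dif_pos (by omega : (k : ℕ) + 1 - 1 < a), map_add, map_smul, hgv,
        smul_zero, add_zero, hgf]
      have he : (⟨(k : ℕ) + 1 - 1, by omega⟩ : Fin a) = k := Fin.ext (by
        change (k : ℕ) + 1 - 1 = (k : ℕ)
        omega)
      rw [he]
    · have hl := l.2
      change jk (fun q : σ × Fin (N + 1) => gB p v f0 a N y (q.2 : ℕ) q.1) (a + 1 + (l : ℕ)) i = _
      rw [hjg y _ (by omega)]
      unfold gB
      rw [if_neg (by omega), dif_neg (by omega : ¬ a + 1 + (l : ℕ) - 1 < a),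
        dif_pos (by omega : a + 1 + (l : ℕ) - 1 - a < N - a)]
      have he : (⟨a + 1 + (l : ℕ) - 1 - a, by omega⟩ : Fin (N - a)) = l := Fin.ext (by
        change a + 1 + (l : ℕ) - 1 - a = (l : ℕ)
        omega)
      rw [he]

end

end Pool.Agent.D0H77.TS
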